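import Pool.Agent.H78.OnlineLB.Upper

/-!
# Order of growth of the best competitive ratio with known durations
-/

namespace Pool.Agent.Results.MP_df35d7_lc.GrowthOrder

open Pool.Agent.H78.OnlineLB

/-- **Order of growth of `c(n)`.** The optimal competitive ratio for the online restricted
assignment of temporary tasks with known durations, over all sequences with arbitrary ratio of the
maximum to the minimum duration, lies between `√(2n) - 1/2` and `2√n + 1` for deterministic
algorithms and between `√(n/2) + 1/4` and `2√n + 1` for randomized algorithms, for every `n ≥ 1`.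
So both are of order `√n`. -/
theorem result (δ : ℝ) (hδ : 0 < δ) :
    (∀ n : ℕ, 1 ≤ n →
      (Real.sqrt (2 * n) - 1 / 2 ≤ detRatio n δ ∧ detRatio n δ ≤ 2 * Real.sqrt n + 1) ∧
      (Real.sqrt (n / 2) + 1 / 4 ≤ randRatio n δ ∧ randRatio n δ ≤ 2 * Real.sqrt n + 1)) ∧
    ((fun n : ℕ => detRatio n δ) =Θ[Filter.atTop] fun n : ℕ => Real.sqrt n) ∧
    ((fun n : ℕ => randRatio n δ) =Θ[Filter.atTop] fun n : ℕ => Real.sqrt n) := by
  have hs1 : ∀ n : ℕ, 1 ≤ n → 1 ≤ Real.sqrt n := by
    intro n hn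
    rw [Real.one_le_sqrt]
    exact_mod_cast hn
  have hs2 : ∀ n : ℕ, Real.sqrt (2 * n) = Real.sqrt 2 * Real.sqrt n := by
    intro n
    rw [Real.sqrt_mul (by norm_num)]
  have hs3 : ∀ n : ℕ, Real.sqrt (n / 2) = Real.sqrt 2 * Real.sqrt n / 2 := by
    intro n
    rw [show (n / 2 : ℝ) = (2 * n) / 2 ^ 2 by ring, Real.sqrt_div (by positivity),
      Real.sqrt_sq (by norm_num), hs2]
  have h2 : 1 ≤ Real.sqrt 2 := by
    rw [Real.one_le_sqrt]
    norm_num
  refine ⟨fun n hn => ratio_bounds hδ hn, isTheta_of_bounds fun n hn => ?_,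
    isTheta_of_bounds fun n hn => ?_⟩
  · obtain ⟨⟨h3, h4⟩, -⟩ := ratio_bounds hδ hn
    have := hs1 n hn
    rw [hs2] at h3
    constructor <;> nlinarith
  · obtain ⟨-, h3, h4⟩ := ratio_bounds hδ hn
    have := hs1 n hn
    rw [hs3] at h3
    constructor <;> nlinarith

end Pool.Agent.Results.MP_df35d7_lc.GrowthOrder
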